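import Mathlib
import Pool.Agent.MP_e6539c_co.h19.Main

/-! Bridgeless multigraphs with at most 17 vertices of odd degree: the edge set is a union of two
cycles, or a component contracts onto the Petersen graph. -/

namespace Pool.Agent.MP_e6539c_co.parked.FewOddVertices

open Pool.Agent.MP_e6539c_co.h19

/-- The Petersen labels as two-element subsets. -/
def kn : Fin 10 → {s : Finset (Fin 5) // s.card = 2} :=
  ![⟨{0, 1}, by decide⟩, ⟨{2, 3}, by decide⟩, ⟨{0, 4}, by decide⟩, ⟨{1, 2}, by decide⟩,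
    ⟨{3, 4}, by decide⟩, ⟨{2, 4}, by decide⟩, ⟨{1, 4}, by decide⟩, ⟨{1, 3}, by decide⟩,
    ⟨{0, 3}, by decide⟩, ⟨{0, 2}, by decide⟩]

lemma kn_surj : ∀ s, ∃ l, kn l = s := by decide +kernel

lemma kn_adj : ∀ l m, adj l m = true ↔ Disjoint (kn l).1 (kn m).1 := by decide +kernel

lemma cover_aux : ∀ x : K, x ≠ 0 → x.1 = 1 ∨ x.2 = 1 := by decide

open Finset Classical

lemma ncard_eq {V E : Type} [Fintype V] [Fintype E] (G : E → Sym2 V) (P : E → Prop) (v : V) :
    {e | P e ∧ v ∈ G e ∧ ¬ (G e).IsDiag}.ncard = ((cut G {v}).filter P).card := by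
  rw [← Set.ncard_coe_finset]
  congr 1
  ext e
  obtain ⟨x, y, h⟩ := exists_ends G e
  simp only [Set.mem_ofPred_eq, Finset.coe_filter, mem_cut_of h, h, Sym2.mem_iff,
    Sym2.mk_isDiag_iff, Set.mem_singleton_iff]
  grind

lemma even_of {V E : Type} [Fintype V] [Fintype E] (G : E → Sym2 V) (g : E → ZMod 2) (v : V)
    (h : bd G g v = 0) : Even {e | g e = 1 ∧ v ∈ G e ∧ ¬ (G e).IsDiag}.ncard := by
  rw [ncard_eq, ← ZMod.natCast_eq_zero_iff_even, ← h, Finset.card_filter]
  push_cast
  refine Finset.sum_congr rfl (fun e _ => ?_)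
  generalize g e = t
  revert t; decide

theorem result : ∀ (V E : Type) [Fintype V] [Fintype E] (ends : E → Sym2 V),
    (∀ (e : E) (x y : V), ends e = s(x, y) →
      Relation.ReflTransGen (fun a b => ∃ e' : E, e' ≠ e ∧ ends e' = s(a, b)) x y) →
    {v : V | Odd {e : E | v ∈ ends e ∧ ¬ (ends e).IsDiag}.ncard}.ncard ≤ 17 →
    (∃ C₁ C₂ : Set E,
      (∀ v : V, Even {e : E | e ∈ C₁ ∧ v ∈ ends e ∧ ¬ (ends e).IsDiag}.ncard) ∧
      (∀ v : V, Even {e : E | e ∈ C₂ ∧ v ∈ ends e ∧ ¬ (ends e).IsDiag}.ncard) ∧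
      C₁ ∪ C₂ = Set.univ) ∨
    (∃ B : {s : Finset (Fin 5) // s.card = 2} → Set V,
      (∀ i, (B i).Nonempty) ∧
      (∀ i, ∀ x ∈ B i, ∀ y ∈ B i, Relation.ReflTransGen
        (fun a b => a ∈ B i ∧ b ∈ B i ∧ ∃ e : E, ends e = s(a, b)) x y) ∧
      (∀ i j, i ≠ j → Disjoint (B i) (B j)) ∧
      (∀ i j, i ≠ j → {e : E | ∃ x ∈ B i, ∃ y ∈ B j, ends e = s(x, y)}.ncard =
        if Disjoint i.1 j.1 then 1 else 0) ∧
      (∀ (e : E) (x y : V) (i : {s : Finset (Fin 5) // s.card = 2}),
        ends e = s(x, y) → x ∈ B i → ∃ j, y ∈ B j)) := by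
  intro V E _ _ G hb ho
  have hbl : Bl G := by
    intro S hS
    obtain ⟨e, he⟩ := Finset.card_eq_one.1 hS
    obtain ⟨x, y, h, hx, hy⟩ := mem_cut.1 (show e ∈ cut G S by simp [he])
    apply hy
    have := hb e x y h
    clear h hy
    induction this with
    | refl => exact hx
    | tail _ h2 ih =>
      obtain ⟨e', n, h'⟩ := h2
      have : e' ∉ cut G S := by simp [he, n]
      rw [mem_cut_of h', not_not] at this
      exact this.1 ih
  have hod : (Od G).card ≤ 17 := by
    refine le_of_eq_of_le ?_ ho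
    rw [← Set.ncard_coe_finset]
    congr 1
    ext v
    have := ncard_eq G (fun _ => True) v
    simp only [true_and, Finset.filter_true] at this
    simp only [Finset.mem_coe, mem_Od, Set.mem_ofPred_eq, this]
  rcases flow_or_petersen G hbl hod with ⟨f, f0, f1⟩ | ⟨p, hp⟩
  · refine Or.inl ⟨{e | (f e).1 = 1}, {e | (f e).2 = 1}, fun v => ?_, fun v => ?_, ?_⟩
    · refine even_of G (fun e => (f e).1) v ?_
      have := bd_hom G (AddMonoidHom.fst _ _) f v
      simpa [f1] using this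
    · refine even_of G (fun e => (f e).2) v ?_
      have := bd_hom G (AddMonoidHom.snd _ _) f v
      simpa [f1] using this
    · ext e
      simpa using cover_aux _ (f0 e)
  right
  have c3 : ∀ l, (cut G (p ⁻¹' {l})).card = 3 := fun l => by
    rw [← cut_gmap, card_cut_fin]
    rw [Finset.sum_congr rfl (fun m hm => hp l m (Ne.symm (by simpa using hm)))]
    revert l
    decide +kernel
  have ex : ∀ l, ∃ z, p z = l ∧ ∃ e y, G e = s(z, y) ∧ p y ≠ l := fun l => by
    obtain ⟨e, he⟩ := Finset.card_pos.1 (show 0 < (cut G (p ⁻¹' {l})).card by rw [c3]; norm_num)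
    obtain ⟨x, y, h, hx, hy⟩ := mem_cut.1 he
    exact ⟨x, hx, e, y, h, hy⟩
  choose z hz hz' using ex
  let r : Fin 10 → V → V → Prop := fun l a b => p a = l ∧ p b = l ∧ ∃ e, G e = s(a, b)
  let A : Fin 10 → Set V := fun l => {x | Relation.ReflTransGen (r l) (z l) x}
  have hA : ∀ l, ∀ x ∈ A l, p x = l := fun l x hx => by
    induction hx with
    | refl => exact hz l
    | tail _ h _ => exact h.2.1
  have hcl : ∀ l e x y, G e = s(x, y) → x ∈ A l → p y = l → y ∈ A l := fun l e x y h hx hy =>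
    Relation.ReflTransGen.tail hx ⟨hA l x hx, hy, e, h⟩
  have sub : ∀ l, cut G (A l) ⊆ cut G (p ⁻¹' {l}) := fun l e he => by
    obtain ⟨x, y, h, hx, hy⟩ := mem_cut.1 he
    exact mem_cut.2 ⟨x, y, h, hA l x hx, fun t => hy (hcl l e x y h hx t)⟩
  have heq : ∀ l, cut G (A l) = cut G (p ⁻¹' {l}) := fun l => by
    have h1 := Finset.card_le_card (sub l)
    have h2 : 0 < (cut G (A l)).card := by
      obtain ⟨e, y, h, hy⟩ := hz' l
      exact Finset.card_pos.2 ⟨e, mem_cut.2 ⟨_, y, h, Relation.ReflTransGen.refl,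
        fun t => hy (hA l y t)⟩⟩
    have h3 := hbl (A l)
    have h4 := hbl (p ⁻¹' {l} \ A l)
    have h5 : cut G (p ⁻¹' {l} \ A l) = cut G (p ⁻¹' {l}) \ cut G (A l) := by
      ext e
      obtain ⟨x, y, h⟩ := exists_ends G e
      have a1 := hA l x
      have a2 := hA l y
      have a3 := hcl l e x y h
      have a4 := hcl l e y x (h.trans Sym2.eq_swap)
      rw [Finset.mem_sdiff, mem_cut_of h, mem_cut_of h, mem_cut_of h]
      simp only [Set.mem_sdiff, Set.mem_preimage, Set.mem_singleton_iff]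
      tauto
    rw [h5, Finset.card_sdiff_of_subset (sub l), c3] at h4
    have := c3 l
    exact Finset.eq_of_subset_of_card_le (sub l) (by omega)
  have hin : ∀ e x y, G e = s(x, y) → p x ≠ p y → x ∈ A (p x) := fun e x y h hne => by
    have : e ∈ cut G (A (p x)) := by
      rw [heq, mem_cut_of h]
      simp [hne.symm]
    rw [mem_cut_of h] at this
    have a2 := hA (p x) y
    by_contra t
    exact this ⟨fun s => absurd s t, fun s => absurd (a2 s).symm hne⟩
  choose ι hι using kn_surj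
  have ι1 : ∀ i j, i ≠ j → ι i ≠ ι j := fun i j h t => h (by rw [← hι i, t, hι])
  have ι2 : ∀ l, ∃ i, ι i = l := by
    apply Finite.injective_iff_surjective_of_equiv (f := ι) (Fintype.equivOfCardEq (by
      decide +kernel)) |>.1
    intro i j h
    by_contra t
    exact ι1 i j t h
  refine ⟨fun i => A (ι i), fun i => ⟨_, Relation.ReflTransGen.refl⟩, fun i x hx y hy => ?_,
    fun i j h => ?_, fun i j h => ?_, fun e x y i h hx => ?_⟩
  · have key : ∀ y ∈ A (ι i), Relation.ReflTransGen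
        (fun a b => a ∈ A (ι i) ∧ b ∈ A (ι i) ∧ ∃ e : E, G e = s(a, b)) (z (ι i)) y := by
      intro y hy
      induction hy with
      | refl => exact Relation.ReflTransGen.refl
      | tail h1 h2 ih => exact ih.tail ⟨h1, h1.tail h2, h2.2.2⟩
    refine Relation.ReflTransGen.trans ?_ (key y hy)
    have := key x hx
    clear hx
    induction this with
    | refl => exact Relation.ReflTransGen.refl
    | tail _ h2 ih =>
      obtain ⟨a1, a2, e, h⟩ := h2
      exact Relation.ReflTransGen.head ⟨a2, a1, e, h.trans Sym2.eq_swap⟩ ih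
  · exact Set.disjoint_left.2 (fun x h1 h2 => ι1 i j h ((hA _ x h1).symm.trans (hA _ x h2)))
  · have h1 := hp _ _ (ι1 i j h)
    simp only [kn_adj, hι] at h1
    rw [← Set.ncard_coe_finset] at h1
    convert h1 using 2
    ext e
    simp only [Set.mem_ofPred_eq, Finset.coe_filter, Finset.mem_univ, true_and]
    constructor
    · rintro ⟨x, hx, y, hy, h'⟩
      rw [gmap_of p h', hA _ x hx, hA _ y hy]
    · intro he
      obtain ⟨x, y, h'⟩ := exists_ends G e
      rw [gmap_of p h'] at he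
      have ne : p x ≠ p y := by
        intro t
        rw [t] at he
        rcases Sym2.eq_iff.1 he with ⟨t1, t2⟩ | ⟨t1, t2⟩
        · exact ι1 i j h (t1.symm.trans t2)
        · exact ι1 i j h (t2.symm.trans t1)
      have b1 := hin e x y h' ne
      have b2 := hin e y x (h'.trans Sym2.eq_swap) ne.symm
      rcases Sym2.eq_iff.1 he with ⟨t1, t2⟩ | ⟨t1, t2⟩
      · exact ⟨x, t1 ▸ b1, y, t2 ▸ b2, h'⟩
      · exact ⟨y, t2 ▸ b2, x, t1 ▸ b1, h'.trans Sym2.eq_swap⟩
  · by_cases t : p y = ι i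
    · exact ⟨i, hcl _ e x y h hx t⟩
    · obtain ⟨j, hj⟩ := ι2 (p y)
      refine ⟨j, ?_⟩
      have := hin e y x (h.trans Sym2.eq_swap) (by rw [hA _ x hx]; exact t)
      rwa [← hj] at this

end Pool.Agent.MP_e6539c_co.parked.FewOddVertices
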